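import Mathlib

/-!
# Sequences for arbitrary measures (MP_507a17_nt, Q2): statements of the pieces
-/

set_option autoImplicit false

namespace Pool.Agent.R373.SQ

open MeasureTheory Finset

open Classical in
/-- (A) approximation of an arbitrary probability measure on the cube by `2 ^ m` points, `m = O(K)`,
up to `2 ^ (-K)` on all products of lower sets. -/
def St_A : Prop := ∀ d : ℕ, ∃ c : ℕ, ∀ (μ : Measure (Fin d → ℝ)), IsProbabilityMeasure μ →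
  μ (Set.Icc (0 : Fin d → ℝ) 1)ᶜ = 0 → ∀ K : ℕ, 1 ≤ K →
  ∃ (m : ℕ) (α : Type) (_ : Fintype α) (p : α → Fin d → ℝ), K ≤ m ∧ m ≤ c * K ∧
    Fintype.card α = 2 ^ m ∧ (∀ q, p q ∈ Set.Icc (0 : Fin d → ℝ) 1) ∧
    ∀ L : Fin d → Set ℝ, (∀ i, IsLowerSet (L i)) →
      |((univ.filter (fun q : α => ∀ i, p q i ∈ L i)).card : ℝ) / 2 ^ m -
        (μ {z | ∀ i, z i ∈ L i}).toReal| ≤ 1 / 2 ^ K

open Classical in
/-- (B) midpoint refinement: iterated halving gives an ordering with controlled potential. -/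
def St_B : Prop := ∀ (α τ : Type) [Fintype τ] (A : τ → α → Prop) (c : τ → ℝ) (lam B : ℝ), 1 ≤ B →
  (∀ (I : Finset α) (M : ℕ), I.card = 2 * M → ∀ w : τ → ℝ, (∀ t, 0 ≤ w t) →
    ∃ J ⊆ I, J.card = M ∧
      ∑ t, w t * Real.cosh (lam / 2 * (((J.filter (A t)).card : ℝ) -
        (((I \ J).filter (A t)).card : ℝ))) ≤ B * ∑ t, w t) →
  ∀ (h : ℕ) (I : Finset α), I.card = 2 ^ h → ∀ (a b : τ → ℝ) (Φ : ℝ),
    (∀ t, b t = a t + ((I.filter (A t)).card : ℝ) - 2 ^ h * c t) →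
    ∑ t, Real.cosh (lam * a t) ≤ Φ → ∑ t, Real.cosh (lam * b t) ≤ Φ →
    ∃ o : ℕ → α, (∀ i < 2 ^ h, o i ∈ I) ∧
      (∀ t, ((range (2 ^ h)).filter (fun i => A t (o i))).card = (I.filter (A t)).card) ∧
      ∀ r ≤ 2 ^ h, ∑ t, Real.cosh (lam * (a t + (((range r).filter (fun i => A t (o i))).card : ℝ) -
        r * c t)) ≤ B ^ h * Φ

open Classical in
/-- (C) concatenation of blocks of length `2 ^ (2 ^ j)`. -/
def St_C : Prop := ∀ (X ι : Type) (A : ι → Set X) (c : ι → ℝ) (d : ℕ), 1 ≤ d → ∀ (C0 : ℝ), 0 ≤ C0 →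
  ∀ P : Set X,
  (∀ K : ℕ, 1 ≤ K → ∃ x : ℕ → X, (∀ i < 2 ^ K, x i ∈ P) ∧ ∀ r ≤ 2 ^ K, ∀ a : ι,
    |(((range r).filter (fun i => x i ∈ A a)).card : ℝ) - r * c a| ≤ C0 * (K : ℝ) ^ d) →
  ∃ x : ℕ → X, (∀ i, x i ∈ P) ∧ ∀ N : ℕ, 2 ≤ N → ∀ a : ι,
    |(((range N).filter (fun i => x i ∈ A a)).card : ℝ) - N * c a| ≤
      (2 * (2 / Real.log 2) ^ d * C0) * (Real.log N) ^ d

/-- (P) potential version of Banaszczyk's prefix balancing theorem -/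
def St_P : Prop := ∀ (ι τ : Type) [Fintype ι] [Fintype τ] (M : ℕ) (v : ℕ → ι → ℝ) (S : τ → ι → ℝ)
  (κ : τ → ℕ) (w : τ → ℝ) (W W' : ℝ), 0 < W → 0 < W' → (∀ k < M, ∑ x, v k x ^ 2 = W) →
  (∀ A, ∑ x, S A x ^ 2 ≤ W') → (∀ A, κ A ≤ M) → (∀ A, 0 ≤ w A) →
  ∃ σ : ℕ → ℤ, (∀ i, σ i = 1 ∨ σ i = -1) ∧
    ∑ A, w A * Real.cosh ((∑ j ∈ range (κ A), (σ j : ℝ) * ∑ x, S A x * v j x) /
      (100 * √(W * W'))) ≤ 3 * ∑ A, w A

open Classical in
/-- (D) halving a set of indices with all rank boxes balanced in potential. Proof: sort `I` by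
`ρ 0`, colour the pairs of consecutive elements with opposite colours; (P) is applied to the pair
differences of the dyadic vectors `∏ vf H n (ρ i.succ q) (x i)` of `Pool.Agent.H460BZ.Anch2` (plus a
dummy coordinate `none` which makes the square norm equal to `W = 4 H ^ D`), with the tests
`∏ tf H n (t i.succ) (x i)`, `W' = H ^ D`. -/
def St_D : Prop := St_P → ∀ (D n H : ℕ), n < 2 ^ H → 0 < H →
  ∀ (α : Type) (ρ : Fin (D + 1) → α → ℕ), (∀ i q, ρ i q ≤ n) →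
  ∀ (I : Finset α) (M : ℕ), I.card = 2 * M →
  ∀ w : (Fin (D + 1) → Fin (n + 1)) → ℝ, (∀ t, 0 ≤ w t) →
  ∃ J ⊆ I, J.card = M ∧
    ∑ t, w t * Real.cosh ((((J.filter (fun q => ∀ i, ρ i q < (t i : ℕ))).card : ℝ) -
      (((I \ J).filter (fun q => ∀ i, ρ i q < (t i : ℕ))).card : ℝ)) / (200 * (H : ℝ) ^ D)) ≤
      4 * ∑ t, w t

end Pool.Agent.R373.SQ
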