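import Pool.Agent.R373.SQ.P3
import Pool.Agent.R109.SQA
import Pool.Agent.R62.SQD
import Pool.Agent.R815.SQB
import Pool.Agent.R815.SQC

/-!
# Sequences with small star discrepancy for arbitrary measures: assembly
-/

set_option autoImplicit false

namespace Pool.Agent.R373.SQ

open MeasureTheory Finset

open Classical in
/-- rank of a point in coordinate `i` -/
noncomputable def rho {α : Type} [Fintype α] {d : ℕ} (p : α → Fin d → ℝ) (i : Fin d) (q : α) : ℕ :=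
  (univ.filter (fun q' : α => p q' i < p q i)).card

open Classical in
/-- threshold of a lower set -/
noncomputable def thr {α : Type} [Fintype α] {d : ℕ} (p : α → Fin d → ℝ) (i : Fin d) (L : Set ℝ) : ℕ :=
  (univ.filter (fun q' : α => p q' i ∈ L)).card

theorem rho_lt_thr {α : Type} [Fintype α] {d : ℕ} (p : α → Fin d → ℝ) (i : Fin d) (L : Set ℝ)
    (hL : IsLowerSet L) (q : α) : rho p i q < thr p i L ↔ p q i ∈ L := by
  classical
  unfold rho thr
  constructor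
  · intro h
    by_contra hc
    refine absurd h (not_lt.mpr (Finset.card_le_card fun q' hq' => ?_))
    rw [Finset.mem_filter] at hq' ⊢
    refine ⟨mem_univ _, ?_⟩
    by_contra hcon
    push Not at hcon
    exact hc (hL hcon hq'.2)
  · intro h
    refine Finset.card_lt_card ⟨fun q' hq' => ?_, fun hs => ?_⟩
    · rw [Finset.mem_filter] at hq' ⊢
      exact ⟨mem_univ _, hL hq'.2.le h⟩
    · have := hs (Finset.mem_filter.mpr ⟨mem_univ q, h⟩)
      rw [Finset.mem_filter] at this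
      exact lt_irrefl _ this.2

theorem rho_le {α : Type} [Fintype α] {d : ℕ} (p : α → Fin d → ℝ) (i : Fin d) (q : α) :
    rho p i q ≤ Fintype.card α := by
  classical
  exact (Finset.card_filter_le _ _).trans (by simp)

theorem thr_le {α : Type} [Fintype α] {d : ℕ} (p : α → Fin d → ℝ) (i : Fin d) (L : Set ℝ) :
    thr p i L ≤ Fintype.card α := by
  classical
  exact (Finset.card_filter_le _ _).trans (by simp)

open Classical in
/-- **Ordering theorem.** Every family of `2 ^ m` points of `ℝ ^ (D+1)` has an enumeration all of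
whose initial segments are equidistributed with respect to the family up to
`100 2^D (2D+5) m^(D+1)`, simultaneously for all products of lower sets. -/
theorem ordering (D m : ℕ) (hm : 1 ≤ m) (α : Type) [Fintype α] (p : α → Fin (D + 1) → ℝ)
    (hα : Fintype.card α = 2 ^ m) :
    ∃ o : ℕ → α, ∀ r ≤ 2 ^ m, ∀ L : Fin (D + 1) → Set ℝ, (∀ i, IsLowerSet (L i)) →
      |(((range r).filter (fun k => ∀ i, p (o k) i ∈ L i)).card : ℝ) -
        r * (((univ.filter (fun q : α => ∀ i, p q i ∈ L i)).card : ℝ) / 2 ^ m)| ≤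
        100 * 2 ^ D * (2 * D + 5) * (m : ℝ) ^ (D + 1) := by
  have hH : 2 ^ m < 2 ^ (m + 1) := Nat.pow_lt_pow_right (by norm_num) (by omega)
  have hmr : (1 : ℝ) ≤ m := by exact_mod_cast hm
  have hHp : (0 : ℝ) < ((m + 1 : ℕ) : ℝ) ^ D := by positivity
  obtain ⟨A, hA⟩ : ∃ A : (Fin (D + 1) → Fin (2 ^ m + 1)) → α → Prop,
      ∀ t q, A t q ↔ ∀ i, rho p i q < (t i : ℕ) := ⟨_, fun _ _ => Iff.rfl⟩
  obtain ⟨c, hc⟩ : ∃ c : (Fin (D + 1) → Fin (2 ^ m + 1)) → ℝ, ∀ t, c t =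
    ((univ.filter (A t)).card : ℝ) / 2 ^ m := ⟨_, fun _ => rfl⟩
  have hB := Pool.Agent.R815.SQ.B_ok α (Fin (D + 1) → Fin (2 ^ m + 1)) A c
    (1 / (100 * ((m + 1 : ℕ) : ℝ) ^ D)) 4 (by norm_num) (by
      intro I M hI w hw
      obtain ⟨J, hJ1, hJ2, hJ3⟩ := Pool.Agent.R62.SQD.D_ok P_ok D (2 ^ m) (m + 1) hH (by omega) α
        (fun i q => rho p i q) (fun i q => (rho_le p i q).trans hα.le) I M hI w hw
      refine ⟨J, hJ1, hJ2, le_trans (le_of_eq ?_) hJ3⟩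
      refine Finset.sum_congr rfl fun t _ => ?_
      have e : ∀ s : Finset α, (s.filter (A t)).card =
          (s.filter (fun q => ∀ i, rho p i q < (t i : ℕ))).card := by
        intro s
        congr 1
        ext q
        simp only [Finset.mem_filter, hA]
      rw [e, e]
      congr 2
      field_simp
      ring)
    m univ (by rw [Finset.card_univ, hα]) (fun _ => 0) (fun _ => 0)
    (((2 ^ m + 1 : ℕ) : ℝ) ^ (D + 1)) (by
      intro t
      show (0 : ℝ) = 0 + ((univ.filter (A t)).card : ℝ) - 2 ^ m * c t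
      rw [hc]
      field_simp
      ring) (by simp) (by simp)
  obtain ⟨o, ho1, ho2, ho3⟩ := hB
  refine ⟨o, fun r hr L hL => ?_⟩
  let t : Fin (D + 1) → Fin (2 ^ m + 1) := fun i => ⟨thr p i (L i), by
    have := thr_le p i (L i); omega⟩
  have hAt : ∀ q, A t q ↔ ∀ i, p q i ∈ L i := fun q =>
    (hA t q).trans (forall_congr' fun i => rho_lt_thr p i (L i) (hL i) q)
  have h1 := ho3 r hr
  have h2 : Real.cosh (1 / (100 * ((m + 1 : ℕ) : ℝ) ^ D) *
      (0 + (((range r).filter (fun i => A t (o i))).card : ℝ) - r * c t)) ≤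
      4 ^ m * ((2 ^ m + 1 : ℕ) : ℝ) ^ (D + 1) := by
    refine le_trans ?_ h1
    exact Finset.single_le_sum (f := fun t => Real.cosh (1 / (100 * ((m + 1 : ℕ) : ℝ) ^ D) *
      (0 + (((range r).filter (fun i => A t (o i))).card : ℝ) - r * c t)))
      (fun s _ => (Real.cosh_pos _).le) (Finset.mem_univ t)
  have hcnt : (range r).filter (fun i => A t (o i)) =
      (range r).filter (fun k => ∀ i, p (o k) i ∈ L i) := by
    ext k
    simp only [Finset.mem_filter, hAt]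
  have hct : c t = ((univ.filter (fun q : α => ∀ i, p q i ∈ L i)).card : ℝ) / 2 ^ m := by
    rw [hc]
    congr 3
    ext q
    simp only [Finset.mem_filter, hAt]
  rw [hcnt, hct, zero_add] at h2
  set E := (((range r).filter (fun k => ∀ i, p (o k) i ∈ L i)).card : ℝ) -
        r * (((univ.filter (fun q : α => ∀ i, p q i ∈ L i)).card : ℝ) / 2 ^ m) with hE
  -- the size of E
  have h3 : Real.exp (1 / (100 * ((m + 1 : ℕ) : ℝ) ^ D) * |E|) ≤
      2 * (4 ^ m * ((2 ^ m + 1 : ℕ) : ℝ) ^ (D + 1)) := by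
    have h4 : Real.exp |1 / (100 * ((m + 1 : ℕ) : ℝ) ^ D) * E| ≤
        2 * Real.cosh (1 / (100 * ((m + 1 : ℕ) : ℝ) ^ D) * E) := by
      rw [← Real.cosh_abs, Real.cosh_eq]
      have := Real.exp_pos (-|1 / (100 * ((m + 1 : ℕ) : ℝ) ^ D) * E|)
      linarith
    rw [abs_mul, abs_of_pos (by positivity : (0:ℝ) < 1 / (100 * ((m + 1 : ℕ) : ℝ) ^ D))] at h4
    linarith
  have h5 : 2 * (4 ^ m * ((2 ^ m + 1 : ℕ) : ℝ) ^ (D + 1)) ≤
      Real.exp ((2 * D + 5) * m) := by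
    have h6 : (2 : ℝ) ≤ Real.exp 1 := by
      have := Real.add_one_le_exp (1 : ℝ)
      linarith
    have h7 : ((2 ^ m + 1 : ℕ) : ℝ) ≤ 2 ^ (m + 1) := by
      push_cast
      rw [pow_succ]
      have : (1 : ℝ) ≤ 2 ^ m := one_le_pow₀ (by norm_num)
      linarith
    have h8 : 2 * (4 ^ m * ((2 ^ m + 1 : ℕ) : ℝ) ^ (D + 1)) ≤ 2 ^ (1 + 2 * m + (m + 1) * (D + 1)) := by
      have h9 : ((2 ^ m + 1 : ℕ) : ℝ) ^ (D + 1) ≤ (2 ^ (m + 1)) ^ (D + 1) :=
        pow_le_pow_left₀ (by positivity) h7 _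
      have h10 : (4 : ℝ) ^ m = 2 ^ (2 * m) := by rw [pow_mul]; norm_num
      calc 2 * (4 ^ m * ((2 ^ m + 1 : ℕ) : ℝ) ^ (D + 1)) ≤ 2 * (4 ^ m * (2 ^ (m + 1)) ^ (D + 1)) := by
            gcongr
        _ = 2 ^ (1 + 2 * m + (m + 1) * (D + 1)) := by
            rw [h10, ← pow_mul, pow_add, pow_add]
            ring
    refine h8.trans ?_
    calc (2 : ℝ) ^ (1 + 2 * m + (m + 1) * (D + 1)) ≤ (Real.exp 1) ^ (1 + 2 * m + (m + 1) * (D + 1)) :=
          pow_le_pow_left₀ (by norm_num) h6 _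
      _ = Real.exp ((1 + 2 * m + (m + 1) * (D + 1) : ℕ) : ℝ) := by
          rw [← Real.exp_nat_mul, mul_one]
      _ ≤ _ := by
          apply Real.exp_le_exp.mpr
          push_cast
          have hD : (0 : ℝ) ≤ D := Nat.cast_nonneg _
          nlinarith
  have h6 := Real.exp_le_exp.mp (h3.trans h5)
  rw [one_div, ← div_eq_inv_mul, div_le_iff₀ (by positivity)] at h6
  refine h6.trans ?_
  have h7 : ((m + 1 : ℕ) : ℝ) ^ D ≤ (2 * m) ^ D := by
    apply pow_le_pow_left₀ (by positivity)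
    push_cast
    linarith
  have hD : (0 : ℝ) ≤ 2 * D + 5 := by positivity
  calc (2 * (D : ℝ) + 5) * m * (100 * ((m + 1 : ℕ) : ℝ) ^ D) ≤ (2 * (D : ℝ) + 5) * m * (100 * (2 * m) ^ D) := by
        gcongr
    _ = 100 * 2 ^ D * (2 * D + 5) * (m : ℝ) ^ (D + 1) := by
        rw [mul_pow, pow_succ]
        ring

open Classical in
/-- finite version -/
theorem finite_version (D : ℕ) : ∃ C0 : ℝ, 0 ≤ C0 ∧ ∀ (μ : Measure (Fin (D + 1) → ℝ)),
    IsProbabilityMeasure μ → μ (Set.Icc (0 : Fin (D + 1) → ℝ) 1)ᶜ = 0 → ∀ K : ℕ, 1 ≤ K →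
    ∃ x : ℕ → Fin (D + 1) → ℝ, (∀ i < 2 ^ K, x i ∈ Set.Icc (0 : Fin (D + 1) → ℝ) 1) ∧
      ∀ r ≤ 2 ^ K, ∀ L : {L : Fin (D + 1) → Set ℝ // ∀ i, IsLowerSet (L i)},
      |(((range r).filter (fun i => x i ∈ {z : Fin (D + 1) → ℝ | ∀ j, z j ∈ L.1 j})).card : ℝ) -
        r * (μ {z | ∀ j, z j ∈ L.1 j}).toReal| ≤ C0 * (K : ℝ) ^ (D + 1) := by
  obtain ⟨c, hc⟩ := R109.SQA.A_ok (D + 1)
  refine ⟨100 * 2 ^ D * (2 * D + 5) * (c : ℝ) ^ (D + 1) + 1, by positivity, ?_⟩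
  intro μ hμ hμ1 K hK
  obtain ⟨m, α, hα, p, hKm, hmc, hcard, hp, happ⟩ := hc μ hμ hμ1 K hK
  obtain ⟨o, ho⟩ := ordering D m (hK.trans hKm) α p hcard
  refine ⟨fun i => p (o i), fun i _ => hp _, fun r hr L => ?_⟩
  have h1 := ho r (hr.trans (Nat.pow_le_pow_right (by norm_num) hKm)) L.1 L.2
  have h2 := happ L.1 L.2
  have hKr : (1 : ℝ) ≤ K := by exact_mod_cast hK
  have hmr : (m : ℝ) ≤ c * K := by exact_mod_cast hmc
  have h3 : (r : ℝ) ≤ 2 ^ K := by exact_mod_cast hr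
  set x1 := (((range r).filter (fun k => ∀ i, p (o k) i ∈ L.1 i)).card : ℝ) with hx1
  set x2 := ((univ.filter (fun q : α => ∀ i, p q i ∈ L.1 i)).card : ℝ) / 2 ^ m with hx2
  set x3 := (μ {z | ∀ j, z j ∈ L.1 j}).toReal with hx3
  have h4 : |(r : ℝ) * x2 - r * x3| ≤ 1 := by
    rw [← mul_sub, abs_mul, abs_of_nonneg (Nat.cast_nonneg r)]
    calc (r : ℝ) * |x2 - x3| ≤ 2 ^ K * (1 / 2 ^ K) := by
          apply mul_le_mul h3 h2 (abs_nonneg _) (by positivity)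
      _ = 1 := by field_simp
  have h5 : |x1 - r * x3| ≤ |x1 - r * x2| + |(r : ℝ) * x2 - r * x3| := by
    have : x1 - r * x3 = (x1 - r * x2) + ((r : ℝ) * x2 - r * x3) := by ring
    rw [this]
    exact abs_add_le _ _
  have h6 : (m : ℝ) ^ (D + 1) ≤ (c : ℝ) ^ (D + 1) * (K : ℝ) ^ (D + 1) := by
    rw [← mul_pow]
    exact pow_le_pow_left₀ (Nat.cast_nonneg _) hmr _
  have h7 : (1 : ℝ) ≤ (K : ℝ) ^ (D + 1) := one_le_pow₀ hKr
  have h8 : 100 * 2 ^ D * (2 * (D : ℝ) + 5) * (m : ℝ) ^ (D + 1) ≤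
      100 * 2 ^ D * (2 * (D : ℝ) + 5) * ((c : ℝ) ^ (D + 1) * (K : ℝ) ^ (D + 1)) := by
    apply mul_le_mul_of_nonneg_left h6
    positivity
  show |x1 - r * x3| ≤ _
  calc |x1 - r * x3| ≤ 100 * 2 ^ D * (2 * (D : ℝ) + 5) * (m : ℝ) ^ (D + 1) + 1 := by linarith
    _ ≤ 100 * 2 ^ D * (2 * (D : ℝ) + 5) * ((c : ℝ) ^ (D + 1) * (K : ℝ) ^ (D + 1)) +
        (K : ℝ) ^ (D + 1) := by linarith
    _ = _ := by ring

open Classical in
/-- **Sequences for arbitrary measures.** -/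
theorem sequences (D : ℕ) : ∃ C : ℝ, ∀ (μ : Measure (Fin (D + 1) → ℝ)),
    IsProbabilityMeasure μ → μ (Set.Icc (0 : Fin (D + 1) → ℝ) 1)ᶜ = 0 →
    ∃ x : ℕ → Fin (D + 1) → ℝ, (∀ i, x i ∈ Set.Icc (0 : Fin (D + 1) → ℝ) 1) ∧
      ∀ N : ℕ, 2 ≤ N → ∀ L : Fin (D + 1) → Set ℝ, (∀ i, IsLowerSet (L i)) →
      |(((range N).filter (fun i => ∀ j, x i j ∈ L j)).card : ℝ) -
        N * (μ {z | ∀ j, z j ∈ L j}).toReal| ≤ C * (Real.log N) ^ (D + 1) := by
  obtain ⟨C0, hC0, h⟩ := finite_version D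
  refine ⟨2 * (2 / Real.log 2) ^ (D + 1) * C0, fun μ hμ hμ1 => ?_⟩
  obtain ⟨x, hx1, hx2⟩ := Pool.Agent.R815.SQ.C_ok (Fin (D + 1) → ℝ)
    {L : Fin (D + 1) → Set ℝ // ∀ i, IsLowerSet (L i)} (fun L => {z | ∀ j, z j ∈ L.1 j})
    (fun L => (μ {z | ∀ j, z j ∈ L.1 j}).toReal) (D + 1) (by omega) C0 hC0
    (Set.Icc (0 : Fin (D + 1) → ℝ) 1) (fun K hK => by
      obtain ⟨x, h1, h2⟩ := h μ hμ hμ1 K hK
      refine ⟨x, h1, fun r hr a => ?_⟩
      convert h2 r hr a using 6)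
  refine ⟨x, hx1, fun N hN L hL => ?_⟩
  have := hx2 N hN ⟨L, hL⟩
  convert this using 6
  exact Iff.rfl

end Pool.Agent.R373.SQ
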