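import Pool.Agent.H460BZ.Tail

/-!
# Banaszczyk's prefix theorem with one body for every prefix
-/

set_option autoImplicit false

namespace Pool.Agent.R373.SQ

open MeasureTheory ProbabilityTheory Set
open Pool.Agent.H460BZ (EE star star_closed star_convex star_symm star_step key_lemma)
open scoped ENNReal Pointwise

variable {n : ℕ}

/-- the bodies of the backward construction -/
def Bd (K : ℕ → Set (EE n)) : ℕ → (ℕ → EE n) → Set (EE n)
  | 0, _ => K 0
  | m + 1, u => star (Bd (fun i => K (i + 1)) m (fun i => u (i + 1))) (u 0) ∩ K 0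

/-- admissible sequences of bodies -/
structure Good (K : ℕ → Set (EE n)) (ε : ℕ → ℝ) : Prop where
  closed : ∀ j, IsClosed (K j)
  conv : ∀ j, Convex ℝ (K j)
  symm : ∀ j, ∀ x ∈ K j, -x ∈ K j
  meas : ∀ j, 1 - ε j ≤ (stdGaussian (EE n) (K j)).toReal

theorem Good.shift {K : ℕ → Set (EE n)} {ε : ℕ → ℝ} (h : Good K ε) :
    Good (fun i => K (i + 1)) (fun i => ε (i + 1)) :=
  ⟨fun _ => h.closed _, fun _ => h.conv _, fun _ => h.symm _, fun _ => h.meas _⟩

theorem Good.nonneg {K : ℕ → Set (EE n)} {ε : ℕ → ℝ} (h : Good K ε) (i : ℕ) : 0 ≤ ε i := by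
  have h1 : (stdGaussian (EE n) (K i)).toReal ≤ 1 := by
    have := ENNReal.toReal_mono ENNReal.one_ne_top (prob_le_one (μ := stdGaussian (EE n)) (s := K i))
    simpa using this
  have h2 := h.meas i
  linarith

theorem Bd_props : ∀ (m : ℕ) (K : ℕ → Set (EE n)) (ε : ℕ → ℝ), Good K ε → ∀ (u : ℕ → EE n),
    (∀ i < m, ‖u i‖ = 1 / 100) → ∑ i ∈ Finset.range (m + 1), ε i ≤ 1 / 100 →
      IsClosed (Bd K m u) ∧ Convex ℝ (Bd K m u) ∧ (∀ x ∈ Bd K m u, -x ∈ Bd K m u) ∧
        1 - ∑ i ∈ Finset.range (m + 1), ε i ≤ (stdGaussian (EE n) (Bd K m u)).toReal := by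
  intro m
  induction m with
  | zero =>
    intro K ε hK u _ _
    exact ⟨hK.closed 0, hK.conv 0, hK.symm 0, by simpa [Bd] using hK.meas 0⟩
  | succ m ih =>
    intro K ε hK u hu hm
    rw [Finset.sum_range_succ'] at hm ⊢
    have hε0 := hK.nonneg 0
    obtain ⟨h1, h2, h3, h4⟩ := ih (fun i => K (i + 1)) (fun i => ε (i + 1)) hK.shift
      (fun i => u (i + 1)) (fun i hi => hu (i + 1) (by omega)) (by linarith)
    set C := Bd (fun i => K (i + 1)) m (fun i => u (i + 1)) with hC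
    have hkey := key_lemma n C h1 h2 (u 0) (hu 0 (by omega)) (by linarith)
    refine ⟨(star_closed h1 _).inter (hK.closed 0), (star_convex h2 _).inter (hK.conv 0), ?_, ?_⟩
    · rintro x ⟨hx1, hx2⟩
      exact ⟨star_symm h3 _ x hx1, hK.symm 0 x hx2⟩
    · have e1 := ENNReal.toReal_mono (measure_ne_top _ _) hkey
      have e2 : stdGaussian (EE n) (star C (u 0)) + stdGaussian (EE n) (K 0) ≤
          stdGaussian (EE n) (star C (u 0) ∩ K 0) + 1 := by
        rw [← measure_union_add_inter _ (hK.closed 0).measurableSet, add_comm]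
        exact add_le_add_right prob_le_one _
      have e3 := ENNReal.toReal_mono (ENNReal.add_ne_top.2 ⟨measure_ne_top _ _, ENNReal.one_ne_top⟩) e2
      rw [ENNReal.toReal_add (measure_ne_top _ _) (measure_ne_top _ _),
        ENNReal.toReal_add (measure_ne_top _ _) ENNReal.one_ne_top, ENNReal.toReal_one] at e3
      have e4 := hK.meas 0
      show 1 - (∑ i ∈ Finset.range (m + 1), ε (i + 1) + ε 0) ≤
        (stdGaussian (EE n) (star C (u 0) ∩ K 0)).toReal
      linarith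

theorem Bd_signs : ∀ (m : ℕ) (K : ℕ → Set (EE n)) (ε : ℕ → ℝ), Good K ε → ∀ (u : ℕ → EE n),
    (∀ i < m, ‖u i‖ = 1 / 100) → ∑ i ∈ Finset.range (m + 1), ε i ≤ 1 / 100 →
      ∀ x ∈ Bd K m u, ∃ σ : ℕ → ℤ, (∀ i, σ i = 1 ∨ σ i = -1) ∧
        ∀ k ≤ m, x + ∑ i ∈ Finset.range k, (σ i : ℝ) • u i ∈ K k := by
  intro m
  induction m with
  | zero =>
    intro K ε hK u _ _ x hx
    refine ⟨fun _ => 1, fun _ => Or.inl rfl, fun k hk => ?_⟩
    have : k = 0 := by omega
    subst this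
    simpa [Bd] using hx
  | succ m ih =>
    intro K ε hK u hu hm x hx
    rw [Finset.sum_range_succ'] at hm
    have hε0 := hK.nonneg 0
    obtain ⟨hx1, hx2⟩ := hx
    have hu' : ∀ i < m, ‖u (i + 1)‖ = 1 / 100 := fun i hi => hu (i + 1) (by omega)
    have hm' : ∑ i ∈ Finset.range (m + 1), ε (i + 1) ≤ 1 / 100 := by linarith
    obtain ⟨h1, h2, h3, h4⟩ := Bd_props m (fun i => K (i + 1)) (fun i => ε (i + 1)) hK.shift
      (fun i => u (i + 1)) hu' hm'
    obtain ⟨s, hs1, hs2⟩ : ∃ s : ℤ, (s = 1 ∨ s = -1) ∧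
        x + (s : ℝ) • u 0 ∈ Bd (fun i => K (i + 1)) m (fun i => u (i + 1)) := by
      rcases star_step h2 (u 0) hx1 with h | h
      · exact ⟨1, Or.inl rfl, by simpa using h⟩
      · exact ⟨-1, Or.inr rfl, by simpa [sub_eq_add_neg] using h⟩
    obtain ⟨σ, hσ1, hσ2⟩ := ih (fun i => K (i + 1)) (fun i => ε (i + 1)) hK.shift
      (fun i => u (i + 1)) hu' hm' _ hs2
    refine ⟨fun i => match i with | 0 => s | i + 1 => σ i, ?_, ?_⟩
    · intro i
      rcases i with _ | i
      · exact hs1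
      · exact hσ1 i
    · intro k hk
      rcases k with _ | k
      · simpa using hx2
      · rw [Finset.sum_range_succ']
        have := hσ2 k (by omega)
        have e : x + (∑ i ∈ Finset.range k, (σ i : ℝ) • u (i + 1) + (s : ℝ) • u 0) =
            x + (s : ℝ) • u 0 + ∑ i ∈ Finset.range k, (σ i : ℝ) • u (i + 1) := by abel
        show x + (∑ i ∈ Finset.range k, (σ i : ℝ) • u (i + 1) + (s : ℝ) • u 0) ∈ K (k + 1)
        rw [e]
        exact this

/-- **Prefix balancing with varying bodies.** If the closed symmetric convex sets `K i` satisfy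
`γ(K i) ≥ 1 - ε i` and `∑_{i ≤ T} ε i ≤ 1/100`, and `u 0, …, u (T-1)` have norm `1/100`, then for
suitable signs the `k`-th partial sum lies in `K k` for all `k ≤ T`. -/
theorem prefix_balance {K : ℕ → Set (EE n)} {ε : ℕ → ℝ} (hK : Good K ε) (T : ℕ)
    (hT : ∑ i ∈ Finset.range (T + 1), ε i ≤ 1 / 100)
    (u : ℕ → EE n) (hu : ∀ i < T, ‖u i‖ = 1 / 100) :
    ∃ σ : ℕ → ℤ, (∀ i, σ i = 1 ∨ σ i = -1) ∧
      ∀ k ≤ T, ∑ i ∈ Finset.range k, (σ i : ℝ) • u i ∈ K k := by
  obtain ⟨h1, h2, h3, h4⟩ := Bd_props T K ε hK u hu hT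
  have hne : (Bd K T u).Nonempty := by
    by_contra hcon
    rw [Set.not_nonempty_iff_eq_empty] at hcon
    rw [hcon, measure_empty, ENNReal.toReal_zero] at h4
    linarith
  obtain ⟨x, hx⟩ := hne
  have h0 : (0 : EE n) ∈ Bd K T u := by
    have := h2 hx (h3 x hx) (a := 1 / 2) (b := 1 / 2) (by norm_num) (by norm_num) (by norm_num)
    simpa using this
  obtain ⟨σ, hσ1, hσ2⟩ := Bd_signs T K ε hK u hu hT 0 h0
  exact ⟨σ, hσ1, fun k hk => by simpa using hσ2 k hk⟩

end Pool.Agent.R373.SQ
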