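import Pool.Agent.R373.SQ.P1

/-!
# Second moments of sums of hyperbolic cosines of Gaussian variables
-/

set_option autoImplicit false

namespace Pool.Agent.R373.SQ

open MeasureTheory ProbabilityTheory Set
open Pool.Agent.H460BZ (EE map_inner)
open scoped ENNReal Pointwise InnerProductSpace

variable {n : ℕ}

theorem int_exp (c : EE n) : Integrable (fun x : EE n => Real.exp ⟪c, x⟫_ℝ) (stdGaussian (EE n)) := by
  have hm := map_inner c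
  have hX : Measurable (fun x : EE n => ⟪c, x⟫_ℝ) := by fun_prop
  have h1 := integrable_exp_mul_gaussianReal (μ := 0) (v := (‖c‖ ^ 2).toNNReal) 1
  rw [← hm] at h1
  rw [integrable_map_measure (by fun_prop) hX.aemeasurable] at h1
  refine h1.congr (Filter.Eventually.of_forall fun x => ?_)
  simp

theorem integral_exp (c : EE n) :
    ∫ x : EE n, Real.exp ⟪c, x⟫_ℝ ∂(stdGaussian (EE n)) = Real.exp (‖c‖ ^ 2 / 2) := by
  have hm := map_inner c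
  have h := mgf_gaussianReal hm 1
  rw [Real.coe_toNNReal _ (by positivity)] at h
  unfold mgf at h
  simp only [one_mul] at h
  rw [h]
  congr 1
  ring

theorem int_cosh (c : EE n) : Integrable (fun x : EE n => Real.cosh ⟪c, x⟫_ℝ) (stdGaussian (EE n)) := by
  have h1 := (int_exp c).add (int_exp (-c))
  refine (h1.div_const 2).congr (Filter.Eventually.of_forall fun x => ?_)
  simp only [Pi.add_apply, inner_neg_left, Real.cosh_eq]

theorem integral_cosh (c : EE n) :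
    ∫ x : EE n, Real.cosh ⟪c, x⟫_ℝ ∂(stdGaussian (EE n)) = Real.exp (‖c‖ ^ 2 / 2) := by
  have h : ∀ x : EE n, Real.cosh ⟪c, x⟫_ℝ = (Real.exp ⟪c, x⟫_ℝ + Real.exp ⟪-c, x⟫_ℝ) / 2 := by
    intro x
    rw [inner_neg_left, Real.cosh_eq]
  simp_rw [h]
  rw [integral_div, integral_add (int_exp c) (int_exp (-c)), integral_exp, integral_exp, norm_neg]
  ring

theorem cosh_mul (x y : ℝ) : Real.cosh x * Real.cosh y = (Real.cosh (x + y) + Real.cosh (x - y)) / 2 := by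
  rw [Real.cosh_add, Real.cosh_sub]
  ring

theorem int_cosh_mul (a b : EE n) :
    Integrable (fun x : EE n => Real.cosh ⟪a, x⟫_ℝ * Real.cosh ⟪b, x⟫_ℝ) (stdGaussian (EE n)) := by
  refine (((int_cosh (a + b)).add (int_cosh (a - b))).div_const 2).congr
    (Filter.Eventually.of_forall fun x => ?_)
  simp only [Pi.add_apply, inner_add_left, inner_sub_left, cosh_mul]

theorem integral_cosh_mul (a b : EE n) :
    ∫ x : EE n, Real.cosh ⟪a, x⟫_ℝ * Real.cosh ⟪b, x⟫_ℝ ∂(stdGaussian (EE n)) =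
      (Real.exp (‖a + b‖ ^ 2 / 2) + Real.exp (‖a - b‖ ^ 2 / 2)) / 2 := by
  have h : ∀ x : EE n, Real.cosh ⟪a, x⟫_ℝ * Real.cosh ⟪b, x⟫_ℝ =
      (Real.cosh ⟪a + b, x⟫_ℝ + Real.cosh ⟪a - b, x⟫_ℝ) / 2 := by
    intro x
    rw [inner_add_left, inner_sub_left, cosh_mul]
  simp_rw [h]
  rw [integral_div, integral_add (int_cosh _) (int_cosh _), integral_cosh, integral_cosh]

/-- the covariance of two hyperbolic cosines -/
theorem cov_le (a b : EE n) (ha : ‖a‖ ^ 2 ≤ 1) (hb : ‖b‖ ^ 2 ≤ 1) :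
    ∫ x : EE n, Real.cosh ⟪a, x⟫_ℝ * Real.cosh ⟪b, x⟫_ℝ ∂(stdGaussian (EE n)) -
      Real.exp (‖a‖ ^ 2 / 2) * Real.exp (‖b‖ ^ 2 / 2) ≤ Real.exp 2 := by
  rw [integral_cosh_mul]
  have h1 : ‖a + b‖ ^ 2 = ‖a‖ ^ 2 + 2 * ⟪a, b⟫_ℝ + ‖b‖ ^ 2 := norm_add_sq_real a b
  have h2 : ‖a - b‖ ^ 2 = ‖a‖ ^ 2 - 2 * ⟪a, b⟫_ℝ + ‖b‖ ^ 2 := norm_sub_sq_real a b
  have h3 : 0 ≤ ‖a + b‖ ^ 2 := by positivity
  have h4 : 0 ≤ ‖a - b‖ ^ 2 := by positivity
  have h5 : Real.exp (‖a + b‖ ^ 2 / 2) ≤ Real.exp 2 := Real.exp_le_exp.mpr (by linarith)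
  have h6 : Real.exp (‖a - b‖ ^ 2 / 2) ≤ Real.exp 2 := Real.exp_le_exp.mpr (by linarith)
  have h7 : 0 < Real.exp (‖a‖ ^ 2 / 2) * Real.exp (‖b‖ ^ 2 / 2) := by positivity
  linarith

theorem cov_zero (a b : EE n) (hab : ⟪a, b⟫_ℝ = 0) :
    ∫ x : EE n, Real.cosh ⟪a, x⟫_ℝ * Real.cosh ⟪b, x⟫_ℝ ∂(stdGaussian (EE n)) -
      Real.exp (‖a‖ ^ 2 / 2) * Real.exp (‖b‖ ^ 2 / 2) = 0 := by
  rw [integral_cosh_mul]
  have h1 : ‖a + b‖ ^ 2 = ‖a‖ ^ 2 + 2 * ⟪a, b⟫_ℝ + ‖b‖ ^ 2 := norm_add_sq_real a b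
  have h2 : ‖a - b‖ ^ 2 = ‖a‖ ^ 2 - 2 * ⟪a, b⟫_ℝ + ‖b‖ ^ 2 := norm_sub_sq_real a b
  rw [h1, h2, hab, ← Real.exp_add]
  have e1 : (‖a‖ ^ 2 + 2 * 0 + ‖b‖ ^ 2) / 2 = ‖a‖ ^ 2 / 2 + ‖b‖ ^ 2 / 2 := by ring
  have e2 : (‖a‖ ^ 2 - 2 * 0 + ‖b‖ ^ 2) / 2 = ‖a‖ ^ 2 / 2 + ‖b‖ ^ 2 / 2 := by ring
  rw [e1, e2]
  ring

theorem int4 {X : Type*} [MeasurableSpace X] (μ : Measure X) [IsProbabilityMeasure μ] (f g h : X → ℝ)
    (c : ℝ) (hf : Integrable f μ) (hg : Integrable g μ) (hh : Integrable h μ) :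
    ∫ x, (f x - g x - h x + c) ∂μ = ∫ x, f x ∂μ - ∫ x, g x ∂μ - ∫ x, h x ∂μ + c := by
  have h1 : Integrable (fun x => f x - g x) μ := hf.sub hg
  have h2 : Integrable (fun x => f x - g x - h x) μ := h1.sub hh
  rw [integral_add h2 (integrable_const c), integral_sub h1 hh, integral_sub hf hg]
  simp

section var
variable {P γ : Type*} [Fintype P] [DecidableEq γ]

theorem var_le (a : P → EE n) (g : P → γ) (w : P → ℝ) (hw : ∀ p, 0 ≤ w p)
    (ha : ∀ p, ‖a p‖ ^ 2 ≤ 1) (hg : ∀ p q, g p ≠ g q → ⟪a p, a q⟫_ℝ = 0) :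
    ∫ x : EE n, (∑ p, w p * Real.cosh ⟪a p, x⟫_ℝ - ∑ p, w p * Real.exp (‖a p‖ ^ 2 / 2)) ^ 2
        ∂(stdGaussian (EE n)) ≤
      Real.exp 2 * ∑ p, ∑ q, if g p = g q then w p * w q else 0 := by
  have hF : ∀ x : EE n, (∑ p, w p * Real.cosh ⟪a p, x⟫_ℝ - ∑ p, w p * Real.exp (‖a p‖ ^ 2 / 2)) ^ 2 =
      ∑ p, ∑ q, w p * w q * (Real.cosh ⟪a p, x⟫_ℝ * Real.cosh ⟪a q, x⟫_ℝ -
        Real.cosh ⟪a p, x⟫_ℝ * Real.exp (‖a q‖ ^ 2 / 2) -
        Real.exp (‖a p‖ ^ 2 / 2) * Real.cosh ⟪a q, x⟫_ℝ +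
        Real.exp (‖a p‖ ^ 2 / 2) * Real.exp (‖a q‖ ^ 2 / 2)) := by
    intro x
    rw [← Finset.sum_sub_distrib, sq, Finset.sum_mul_sum]
    refine Finset.sum_congr rfl fun p _ => Finset.sum_congr rfl fun q _ => ?_
    ring
  simp_rw [hF]
  have hi : ∀ p q : P, Integrable (fun x : EE n => w p * w q * (Real.cosh ⟪a p, x⟫_ℝ * Real.cosh ⟪a q, x⟫_ℝ -
        Real.cosh ⟪a p, x⟫_ℝ * Real.exp (‖a q‖ ^ 2 / 2) -
        Real.exp (‖a p‖ ^ 2 / 2) * Real.cosh ⟪a q, x⟫_ℝ +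
        Real.exp (‖a p‖ ^ 2 / 2) * Real.exp (‖a q‖ ^ 2 / 2))) (stdGaussian (EE n)) := by
    intro p q
    exact ((((int_cosh_mul (a p) (a q)).sub ((int_cosh (a p)).mul_const _)).sub
      ((int_cosh (a q)).const_mul _)).add (integrable_const _)).const_mul _
  rw [integral_finsetSum _ (fun p _ => integrable_finsetSum _ fun q _ => hi p q)]
  rw [Finset.mul_sum]
  refine Finset.sum_le_sum fun p _ => ?_
  rw [integral_finsetSum _ (fun q _ => hi p q), Finset.mul_sum]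
  refine Finset.sum_le_sum fun q _ => ?_
  rw [integral_const_mul]
  have e : ∫ x : EE n, (Real.cosh ⟪a p, x⟫_ℝ * Real.cosh ⟪a q, x⟫_ℝ -
        Real.cosh ⟪a p, x⟫_ℝ * Real.exp (‖a q‖ ^ 2 / 2) -
        Real.exp (‖a p‖ ^ 2 / 2) * Real.cosh ⟪a q, x⟫_ℝ +
        Real.exp (‖a p‖ ^ 2 / 2) * Real.exp (‖a q‖ ^ 2 / 2)) ∂(stdGaussian (EE n)) =
      ∫ x : EE n, Real.cosh ⟪a p, x⟫_ℝ * Real.cosh ⟪a q, x⟫_ℝ ∂(stdGaussian (EE n)) -
      Real.exp (‖a p‖ ^ 2 / 2) * Real.exp (‖a q‖ ^ 2 / 2) := by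
    rw [int4 (stdGaussian (EE n)) (fun x => Real.cosh ⟪a p, x⟫_ℝ * Real.cosh ⟪a q, x⟫_ℝ)
      (fun x => Real.cosh ⟪a p, x⟫_ℝ * Real.exp (‖a q‖ ^ 2 / 2))
      (fun x => Real.exp (‖a p‖ ^ 2 / 2) * Real.cosh ⟪a q, x⟫_ℝ) _
      (int_cosh_mul (a p) (a q)) ((int_cosh (a p)).mul_const _) ((int_cosh (a q)).const_mul _),
      integral_mul_const, integral_const_mul, integral_cosh, integral_cosh]
    ring
  rw [e]
  have hpq : 0 ≤ w p * w q := mul_nonneg (hw p) (hw q)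
  split_ifs with h
  · have := cov_le (a p) (a q) (ha p) (ha q)
    calc w p * w q * _ ≤ w p * w q * Real.exp 2 := mul_le_mul_of_nonneg_left this hpq
      _ = _ := by ring
  · rw [cov_zero _ _ (hg p q h)]
    simp

/-- the convex body of the potential has large Gaussian measure -/
theorem body_measure (a : P → EE n) (g : P → γ) (w : P → ℝ) (hw : ∀ p, 0 ≤ w p)
    (ha : ∀ p, ‖a p‖ ^ 2 ≤ 1) (hg : ∀ p q, g p ≠ g q → ⟪a p, a q⟫_ℝ = 0) (t δ : ℝ) (ht : 0 < t)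
    (hδ : Real.exp 2 * ∑ p, ∑ q, (if g p = g q then w p * w q else 0) ≤ δ * t ^ 2)
    (hm : Real.exp (1 / 2) * ∑ p, w p ≤ 2 * t) :
    1 - δ ≤ (stdGaussian (EE n) {x | ∑ p, w p * Real.cosh ⟪a p, x⟫_ℝ ≤ 3 * t}).toReal := by
  set m := ∑ p, w p * Real.exp (‖a p‖ ^ 2 / 2) with hmdef
  set F : EE n → ℝ := fun x => ∑ p, w p * Real.cosh ⟪a p, x⟫_ℝ with hF
  have hFm : Measurable F := by
    apply Finset.measurable_fun_sum
    intro p _
    exact (Real.continuous_cosh.measurable.comp (by fun_prop)).const_mul _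
  have hm2 : m ≤ 2 * t := by
    refine le_trans ?_ hm
    rw [hmdef, Finset.mul_sum]
    refine Finset.sum_le_sum fun p _ => ?_
    rw [mul_comm]
    exact mul_le_mul_of_nonneg_right (Real.exp_le_exp.mpr (by linarith [ha p])) (hw p)
  have hv := var_le a g w hw ha hg
  have hint : Integrable (fun x : EE n => (F x - m) ^ 2) (stdGaussian (EE n)) := by
    have hF2 : ∀ x : EE n, (F x - m) ^ 2 =
      ∑ p, ∑ q, w p * w q * (Real.cosh ⟪a p, x⟫_ℝ * Real.cosh ⟪a q, x⟫_ℝ -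
        Real.cosh ⟪a p, x⟫_ℝ * Real.exp (‖a q‖ ^ 2 / 2) -
        Real.exp (‖a p‖ ^ 2 / 2) * Real.cosh ⟪a q, x⟫_ℝ +
        Real.exp (‖a p‖ ^ 2 / 2) * Real.exp (‖a q‖ ^ 2 / 2)) := by
      intro x
      rw [hF, hmdef]
      simp only
      rw [← Finset.sum_sub_distrib, sq, Finset.sum_mul_sum]
      refine Finset.sum_congr rfl fun p _ => Finset.sum_congr rfl fun q _ => ?_
      ring
    simp_rw [hF2]
    refine integrable_finsetSum _ fun p _ => integrable_finsetSum _ fun q _ => ?_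
    exact ((((int_cosh_mul (a p) (a q)).sub ((int_cosh (a p)).mul_const _)).sub
      ((int_cosh (a q)).const_mul _)).add (integrable_const _)).const_mul _
  have hmark := mul_meas_ge_le_integral_of_nonneg (μ := stdGaussian (EE n))
    (f := fun x => (F x - m) ^ 2) (Filter.Eventually.of_forall fun x => sq_nonneg _) hint (t ^ 2)
  have hsub : {x : EE n | F x ≤ 3 * t}ᶜ ⊆ {x | t ^ 2 ≤ (F x - m) ^ 2} := by
    intro x hx
    simp only [mem_compl_iff, mem_ofPred_eq, not_le] at hx ⊢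
    have : t ≤ F x - m := by linarith
    nlinarith
  have h1 : (stdGaussian (EE n)).real ({x : EE n | F x ≤ 3 * t}ᶜ) ≤ δ := by
    have h2 := measureReal_mono (μ := stdGaussian (EE n)) hsub
    have h3 : t ^ 2 * (stdGaussian (EE n)).real {x | t ^ 2 ≤ (F x - m) ^ 2} ≤ δ * t ^ 2 :=
      hmark.trans (hv.trans hδ)
    have h4 : 0 < t ^ 2 := by positivity
    have h5 : (stdGaussian (EE n)).real {x | t ^ 2 ≤ (F x - m) ^ 2} ≤ δ := by
      by_contra hc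
      push Not at hc
      nlinarith
    exact h2.trans h5
  have hms : MeasurableSet {x : EE n | F x ≤ 3 * t} := measurableSet_le hFm measurable_const
  rw [probReal_compl_eq_one_sub hms] at h1
  have h2 : (stdGaussian (EE n)).real {x : EE n | F x ≤ 3 * t} =
    (stdGaussian (EE n) {x | F x ≤ 3 * t}).toReal := rfl
  rw [← h2]
  linarith

end var

end Pool.Agent.R373.SQ
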