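import Pool.Agent.R373.SQ.P2
import Pool.Agent.R373.SQ.Stmts
import Pool.Agent.H460BZ.Anch

/-!
# The potential version of the prefix balancing theorem
-/

set_option autoImplicit false
set_option linter.unusedSectionVars false
set_option linter.unusedSimpArgs false

namespace Pool.Agent.R373.SQ

open MeasureTheory ProbabilityTheory Set
open Pool.Agent.H460BZ (EE inner_toLp norm_toLp_sq)
open scoped ENNReal Pointwise InnerProductSpace

theorem exp_two_le : Real.exp 2 ≤ 8 := by
  have h1 : Real.exp 1 < 2.7182818286 := Real.exp_one_lt_d9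
  have h2 : Real.exp 2 = Real.exp 1 * Real.exp 1 := by rw [← Real.exp_add]; norm_num
  have h3 := Real.exp_pos 1
  rw [h2]
  nlinarith

theorem exp_half_le : Real.exp (1 / 2) ≤ 2 := by
  have h1 : Real.exp 1 < 2.7182818286 := Real.exp_one_lt_d9
  have h2 : Real.exp 1 = Real.exp (1 / 2) * Real.exp (1 / 2) := by rw [← Real.exp_add]; norm_num
  have h3 := Real.exp_pos (1 / 2)
  by_contra hc
  push Not at hc
  nlinarith

theorem cosh_convex {b c : ℝ} (hb : 0 ≤ b) (hc : 0 ≤ c) (hbc : b + c = 1) (x y : ℝ) :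
    Real.cosh (b * x + c * y) ≤ b * Real.cosh x + c * Real.cosh y := by
  have h1 := convexOn_exp.2 (mem_univ x) (mem_univ y) hb hc hbc
  have h2 := convexOn_exp.2 (mem_univ (-x)) (mem_univ (-y)) hb hc hbc
  simp only [smul_eq_mul] at h1 h2
  rw [Real.cosh_eq, Real.cosh_eq, Real.cosh_eq]
  have e : -(b * x + c * y) = b * -x + c * -y := by ring
  rw [e]
  linarith

section
variable {ι τ : Type} [Fintype ι] [Fintype τ]

/-- the vector of step `s`: the vector `v (s / R)` in the clone `s % R` -/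
noncomputable def U (R : ℕ) (v : ℕ → ι → ℝ) (W : ℝ) (s : ℕ) : EE (Fintype.card (ι × Fin R)) :=
  WithLp.toLp 2 (fun i =>
    (fun y : ι × Fin R => if (y.2 : ℕ) = s % R then v (s / R) y.1 / (100 * √W) else 0)
      ((Fintype.equivFin (ι × Fin R)).symm i))

/-- the test `A` in the clone `j` -/
noncomputable def aa (R : ℕ) (S : τ → ι → ℝ) (W' : ℝ) (p : τ × Fin R) :
    EE (Fintype.card (ι × Fin R)) :=
  WithLp.toLp 2 (fun i =>
    (fun y : ι × Fin R => if y.2 = p.2 then S p.1 y.1 / √W' else 0)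
      ((Fintype.equivFin (ι × Fin R)).symm i))

theorem U_norm (R : ℕ) (hR : 0 < R) (v : ℕ → ι → ℝ) (W : ℝ) (hW : 0 < W) (s : ℕ)
    (hv : ∑ x, v (s / R) x ^ 2 = W) : ‖U R v W s‖ = 1 / 100 := by
  have h : ‖U R v W s‖ ^ 2 = (1 / 100) ^ 2 := by
    unfold U
    rw [norm_toLp_sq, (Fintype.equivFin (ι × Fin R)).symm.sum_comp (fun y : ι × Fin R =>
      (if (y.2 : ℕ) = s % R then v (s / R) y.1 / (100 * √W) else 0) ^ 2), Fintype.sum_prod_type]
    have : ∀ x : ι, ∑ j : Fin R, (if (j : ℕ) = s % R then v (s / R) x / (100 * √W) else 0) ^ 2 =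
        v (s / R) x ^ 2 / (100 ^ 2 * W) := by
      intro x
      rw [Finset.sum_eq_single (⟨s % R, Nat.mod_lt _ hR⟩ : Fin R)]
      · rw [if_pos rfl, div_pow, mul_pow, Real.sq_sqrt hW.le]
      · intro j _ hj
        rw [if_neg (fun h => hj (Fin.ext h))]
        norm_num
      · simp
    simp only [this]
    rw [← Finset.sum_div, hv]
    field_simp
  exact (sq_eq_sq₀ (norm_nonneg _) (by norm_num)).mp h

theorem aa_norm (R : ℕ) (S : τ → ι → ℝ) (W' : ℝ) (hW' : 0 < W') (p : τ × Fin R)
    (hS : ∑ x, S p.1 x ^ 2 ≤ W') : ‖aa R S W' p‖ ^ 2 ≤ 1 := by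
  unfold aa
  rw [norm_toLp_sq, (Fintype.equivFin (ι × Fin R)).symm.sum_comp (fun y : ι × Fin R =>
      (if y.2 = p.2 then S p.1 y.1 / √W' else 0) ^ 2), Fintype.sum_prod_type]
  have : ∀ x : ι, ∑ j : Fin R, (if j = p.2 then S p.1 x / √W' else 0) ^ 2 = S p.1 x ^ 2 / W' := by
    intro x
    rw [Finset.sum_eq_single p.2]
    · rw [if_pos rfl, div_pow, Real.sq_sqrt hW'.le]
    · intro j _ hj
      rw [if_neg hj]
      norm_num
    · simp
  simp only [this]
  rw [← Finset.sum_div, div_le_one hW']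
  exact hS

theorem aa_orth (R : ℕ) (S : τ → ι → ℝ) (W' : ℝ) (p q : τ × Fin R) (h : p.2 ≠ q.2) :
    ⟪aa R S W' p, aa R S W' q⟫_ℝ = 0 := by
  unfold aa
  rw [inner_toLp]
  refine Finset.sum_eq_zero fun i _ => ?_
  simp only
  by_cases h1 : ((Fintype.equivFin (ι × Fin R)).symm i).2 = p.2
  · rw [if_neg (fun h2 => h (h1.symm.trans h2)), mul_zero]
  · rw [if_neg h1, zero_mul]

theorem inner_aaU (R : ℕ) (S : τ → ι → ℝ) (W' : ℝ) (v : ℕ → ι → ℝ) (W : ℝ) (p : τ × Fin R) (s : ℕ) :
    ⟪aa R S W' p, U R v W s⟫_ℝ =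
      if (p.2 : ℕ) = s % R then (∑ x, S p.1 x * v (s / R) x) / (100 * (√W * √W')) else 0 := by
  unfold aa U
  rw [inner_toLp, (Fintype.equivFin (ι × Fin R)).symm.sum_comp (fun y : ι × Fin R =>
      (if y.2 = p.2 then S p.1 y.1 / √W' else 0) *
      (if (y.2 : ℕ) = s % R then v (s / R) y.1 / (100 * √W) else 0)), Fintype.sum_prod_type]
  have : ∀ x : ι, ∑ j : Fin R, (if j = p.2 then S p.1 x / √W' else 0) *
      (if (j : ℕ) = s % R then v (s / R) x / (100 * √W) else 0) =
      if (p.2 : ℕ) = s % R then (S p.1 x * v (s / R) x) / (100 * (√W * √W')) else 0 := by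
    intro x
    rw [Finset.sum_eq_single p.2]
    · rw [if_pos rfl]
      split_ifs
      · rw [div_mul_div_comm]
        congr 1
        ring
      · rw [mul_zero]
    · intro j _ hj
      rw [if_neg hj, zero_mul]
    · simp
  simp only [this]
  split_ifs
  · rw [Finset.sum_div]
  · simp

/-- weight of the tests of time `k` -/
noncomputable def wk (κ : τ → ℕ) (w : τ → ℝ) (R : ℕ) (k : ℕ) (p : τ × Fin R) : ℝ :=
  if κ p.1 = k then w p.1 else 0

noncomputable def Wk (κ : τ → ℕ) (w : τ → ℝ) (k : ℕ) : ℝ := ∑ A, if κ A = k then w A else 0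

theorem wk_nonneg (κ : τ → ℕ) (w : τ → ℝ) (hw : ∀ A, 0 ≤ w A) (R : ℕ) (k : ℕ) (p : τ × Fin R) :
    0 ≤ wk κ w R k p := by
  unfold wk
  split_ifs
  · exact hw _
  · exact le_rfl

theorem Wk_nonneg (κ : τ → ℕ) (w : τ → ℝ) (hw : ∀ A, 0 ≤ w A) (k : ℕ) : 0 ≤ Wk κ w k := by
  unfold Wk
  refine Finset.sum_nonneg fun A _ => ?_
  split_ifs
  · exact hw _
  · exact le_rfl

theorem wk_sum (κ : τ → ℕ) (w : τ → ℝ) (R : ℕ) (k : ℕ) : ∑ p, wk κ w R k p = R * Wk κ w k := by
  unfold wk Wk
  rw [Fintype.sum_prod_type]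
  simp only [Finset.sum_const, Finset.card_univ, Fintype.card_fin, nsmul_eq_mul]
  rw [Finset.mul_sum]

theorem wk_sum2 (κ : τ → ℕ) (w : τ → ℝ) (R : ℕ) (k : ℕ) :
    ∑ p : τ × Fin R, ∑ q : τ × Fin R, (if p.2 = q.2 then wk κ w R k p * wk κ w R k q else 0) =
      R * Wk κ w k ^ 2 := by
  have h1 : ∀ p : τ × Fin R, ∑ q : τ × Fin R, (if p.2 = q.2 then wk κ w R k p * wk κ w R k q else 0) =
      wk κ w R k p * Wk κ w k := by
    intro p
    rw [Fintype.sum_prod_type]
    unfold Wk
    rw [Finset.mul_sum]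
    refine Finset.sum_congr rfl fun A _ => ?_
    rw [Finset.sum_eq_single p.2]
    · rw [if_pos rfl]
      rfl
    · intro j _ hj
      rw [if_neg (fun h => hj h.symm)]
    · simp
  simp only [h1]
  rw [← Finset.sum_mul, wk_sum]
  ring

theorem P_ok : St_P := by
  intro ι τ _ _ M v S κ w W W' hW hW' hv hS hκ hw
  classical
  obtain ⟨R, hR⟩ : ∃ R : ℕ, R = 800 * (M + 1) := ⟨_, rfl⟩
  have hR0 : 0 < R := by omega
  have hRr : (0 : ℝ) < R := by exact_mod_cast hR0
  let K : ℕ → Set (EE (Fintype.card (ι × Fin R))) := fun s =>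
    if R ∣ s then {x | ∑ p, wk κ w R (s / R) p * Real.cosh ⟪aa R S W' p, x⟫_ℝ ≤
      3 * (R * Wk κ w (s / R))} else univ
  let ε : ℕ → ℝ := fun s => if R ∣ s then 1 / (100 * ((M : ℝ) + 1)) else 0
  have hKeq : ∀ s, R ∣ s → K s = {x | ∑ p, wk κ w R (s / R) p * Real.cosh ⟪aa R S W' p, x⟫_ℝ ≤
      3 * (R * Wk κ w (s / R))} := fun s hs => if_pos hs
  have hKu : ∀ s, ¬ R ∣ s → K s = univ := fun s hs => if_neg hs
  have hgood : Good K ε := by
    refine ⟨fun s => ?_, fun s => ?_, fun s => ?_, fun s => ?_⟩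
    · by_cases hs : R ∣ s
      · rw [hKeq s hs]
        refine isClosed_le ?_ continuous_const
        refine continuous_finsetSum _ fun p _ => ?_
        exact continuous_const.mul (Real.continuous_cosh.comp (by fun_prop))
      · rw [hKu s hs]; exact isClosed_univ
    · by_cases hs : R ∣ s
      · rw [hKeq s hs]
        intro x hx y hy b c hb hc hbc
        simp only [mem_ofPred_eq] at hx hy ⊢
        have hcv : ∀ p, wk κ w R (s / R) p * Real.cosh ⟪aa R S W' p, b • x + c • y⟫_ℝ ≤
            b * (wk κ w R (s / R) p * Real.cosh ⟪aa R S W' p, x⟫_ℝ) +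
            c * (wk κ w R (s / R) p * Real.cosh ⟪aa R S W' p, y⟫_ℝ) := by
          intro p
          rw [inner_add_right, inner_smul_right, inner_smul_right]
          have h1 := cosh_convex hb hc hbc ⟪aa R S W' p, x⟫_ℝ ⟪aa R S W' p, y⟫_ℝ
          have h2 := mul_le_mul_of_nonneg_left h1 (wk_nonneg κ w hw R (s / R) p)
          linarith
        refine (Finset.sum_le_sum fun p _ => hcv p).trans ?_
        rw [Finset.sum_add_distrib, ← Finset.mul_sum, ← Finset.mul_sum]
        have h1 := mul_le_mul_of_nonneg_left hx hb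
        have h2 := mul_le_mul_of_nonneg_left hy hc
        have h3 : b * (3 * (R * Wk κ w (s / R))) + c * (3 * (R * Wk κ w (s / R))) =
          3 * (R * Wk κ w (s / R)) := by rw [← add_mul, hbc, one_mul]
        linarith
      · rw [hKu s hs]; exact convex_univ
    · by_cases hs : R ∣ s
      · rw [hKeq s hs]
        intro x hx
        simp only [mem_ofPred_eq, inner_neg_right, Real.cosh_neg] at hx ⊢
        exact hx
      · rw [hKu s hs]; exact fun _ _ => mem_univ _
    · by_cases hs : R ∣ s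
      · rw [hKeq s hs]
        show 1 - (if R ∣ s then 1 / (100 * ((M : ℝ) + 1)) else 0) ≤ _
        rw [if_pos hs]
        set k := s / R with hk
        rcases (Wk_nonneg κ w hw k).eq_or_lt with h0 | h0
        · have hz : ∀ p, wk κ w R k p = 0 := by
            have h1 := wk_sum κ w R k
            rw [← h0, mul_zero] at h1
            intro p
            exact (Finset.sum_eq_zero_iff_of_nonneg (fun p _ => wk_nonneg κ w hw R k p)).mp h1 p
              (Finset.mem_univ p)
          have : {x : EE (Fintype.card (ι × Fin R)) | ∑ p, wk κ w R k p *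
              Real.cosh ⟪aa R S W' p, x⟫_ℝ ≤ 3 * (R * Wk κ w k)} = univ := by
            ext x
            simp only [mem_ofPred_eq, mem_univ, iff_true, hz, zero_mul, Finset.sum_const_zero, ← h0,
              mul_zero, le_refl]
          rw [this, measure_univ]
          have : 0 ≤ 1 / (100 * ((M : ℝ) + 1)) := by positivity
          simp only [ENNReal.toReal_one]
          linarith
        · refine body_measure (aa R S W') (fun p => p.2) (wk κ w R k) (wk_nonneg κ w hw R k)
            (fun p => aa_norm R S W' hW' p (hS p.1)) (fun p q h => aa_orth R S W' p q h)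
            (R * Wk κ w k) _ (by positivity) ?_ ?_
          · rw [wk_sum2]
            have h1 := exp_two_le
            have h2 : 1 / (100 * ((M : ℝ) + 1)) * (R * Wk κ w k) ^ 2 = 8 * (R * Wk κ w k ^ 2) := by
              have h3 : (R : ℝ) = 800 * ((M : ℝ) + 1) := by rw [hR]; push_cast; ring
              rw [mul_pow, sq (R : ℝ)]
              nth_rewrite 1 [h3]
              field_simp
              ring
            rw [h2]
            exact mul_le_mul_of_nonneg_right h1 (by positivity)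
          · rw [wk_sum]
            exact mul_le_mul_of_nonneg_right exp_half_le (by positivity)
      · rw [hKu s hs, measure_univ]
        show 1 - (if R ∣ s then 1 / (100 * ((M : ℝ) + 1)) else 0) ≤ _
        rw [if_neg hs]
        simp
  have hsumε : ∑ s ∈ Finset.range (M * R + 1), ε s ≤ 1 / 100 := by
    show ∑ s ∈ Finset.range (M * R + 1), (if R ∣ s then 1 / (100 * ((M : ℝ) + 1)) else 0) ≤ 1 / 100
    rw [← Finset.sum_filter, Finset.sum_const, nsmul_eq_mul]
    have hc : ((Finset.range (M * R + 1)).filter (fun s => R ∣ s)).card ≤ M + 1 := by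
      have hsub : (Finset.range (M * R + 1)).filter (fun s => R ∣ s) ⊆
          (Finset.range (M + 1)).image (fun k => k * R) := by
        intro s hs
        rw [Finset.mem_filter, Finset.mem_range] at hs
        obtain ⟨hs1, k, rfl⟩ := hs
        rw [Finset.mem_image]
        refine ⟨k, ?_, Nat.mul_comm _ _⟩
        rw [Finset.mem_range]
        by_contra hcon
        push Not at hcon
        have : (M + 1) * R ≤ R * k := by rw [Nat.mul_comm R k]; exact Nat.mul_le_mul_right R hcon
        nlinarith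
      refine (Finset.card_le_card hsub).trans (Finset.card_image_le.trans ?_)
      simp
    have hc' : ((((Finset.range (M * R + 1)).filter (fun s => R ∣ s)).card : ℕ) : ℝ) ≤ (M : ℝ) + 1 := by
      exact_mod_cast hc
    calc _ ≤ ((M : ℝ) + 1) * (1 / (100 * ((M : ℝ) + 1))) :=
          mul_le_mul_of_nonneg_right hc' (by positivity)
      _ = 1 / 100 := by field_simp
  obtain ⟨σ, hσ, hpre⟩ := prefix_balance hgood (M * R) hsumε (U R v W) (by
    intro s hs
    exact U_norm R hR0 v W hW s (hv _ ((Nat.div_lt_iff_lt_mul hR0).mpr hs)))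
  -- the exponents of the clones
  let X : τ × Fin R → ℝ := fun p => (∑ i ∈ Finset.range (κ p.1), (σ (i * R + p.2) : ℝ) *
    ∑ x, S p.1 x * v i x) / (100 * √(W * W'))
  have hX : ∀ p : τ × Fin R, ⟪aa R S W' p, ∑ s ∈ Finset.range (κ p.1 * R), (σ s : ℝ) • U R v W s⟫_ℝ =
      X p := by
    intro p
    rw [inner_sum]
    have h1 : ∀ s, ⟪aa R S W' p, (σ s : ℝ) • U R v W s⟫_ℝ =
        if (p.2 : ℕ) = s % R then (σ s : ℝ) * ((∑ x, S p.1 x * v (s / R) x) / (100 * (√W * √W'))) else 0 := by
      intro s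
      rw [inner_smul_right, inner_aaU]
      split_ifs <;> simp
    simp only [h1]
    rw [← Finset.sum_filter]
    show _ = (∑ i ∈ Finset.range (κ p.1), (σ (i * R + p.2) : ℝ) *
      ∑ x, S p.1 x * v i x) / (100 * √(W * W'))
    rw [Finset.sum_div]
    symm
    refine Finset.sum_bij (fun i _ => i * R + (p.2 : ℕ)) ?_ ?_ ?_ ?_
    · intro i hi
      rw [Finset.mem_range] at hi
      rw [Finset.mem_filter, Finset.mem_range]
      have hj := p.2.2
      constructor
      · calc i * R + (p.2 : ℕ) < i * R + R := by omega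
          _ = (i + 1) * R := by ring
          _ ≤ κ p.1 * R := Nat.mul_le_mul_right R hi
      · rw [Nat.mul_comm i R, Nat.mul_add_mod, Nat.mod_eq_of_lt hj]
    · intro i _ i' _ h
      have : i * R = i' * R := by simpa using h
      exact Nat.eq_of_mul_eq_mul_right hR0 this
    · intro s hs
      rw [Finset.mem_filter, Finset.mem_range] at hs
      refine ⟨s / R, ?_, ?_⟩
      · rw [Finset.mem_range]
        exact (Nat.div_lt_iff_lt_mul hR0).mpr hs.1
      · rw [hs.2]
        exact Nat.div_add_mod' s R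
    · intro i _
      have hj := p.2.2
      have hd : (i * R + (p.2 : ℕ)) / R = i := by
        rw [Nat.mul_comm i R, Nat.mul_add_div hR0, Nat.div_eq_of_lt hj, add_zero]
      rw [hd, Real.sqrt_mul hW.le, mul_div_assoc]
  have hk : ∀ k ≤ M, ∑ p, wk κ w R k p * Real.cosh (X p) ≤ 3 * (R * Wk κ w k) := by
    intro k hkM
    have h1 := hpre (k * R) (Nat.mul_le_mul_right R hkM)
    rw [hKeq _ (Dvd.intro_left k rfl), mem_ofPred_eq, Nat.mul_div_cancel _ hR0] at h1
    refine le_trans (le_of_eq ?_) h1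
    refine Finset.sum_congr rfl fun p _ => ?_
    unfold wk
    split_ifs with hp
    · rw [← hX p, hp]
    · rw [zero_mul, zero_mul]
  -- sum over the times
  have htot : ∑ p : τ × Fin R, w p.1 * Real.cosh (X p) ≤ 3 * (R * ∑ A, w A) := by
    have h1 : ∀ p : τ × Fin R, w p.1 * Real.cosh (X p) =
        ∑ k ∈ Finset.range (M + 1), wk κ w R k p * Real.cosh (X p) := by
      intro p
      rw [← Finset.sum_mul]
      congr 1
      unfold wk
      rw [Finset.sum_ite_eq, if_pos]
      rw [Finset.mem_range]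
      have := hκ p.1
      omega
    simp only [h1]
    rw [Finset.sum_comm]
    refine (Finset.sum_le_sum fun k hk' => hk k (by rw [Finset.mem_range] at hk'; omega)).trans ?_
    rw [← Finset.mul_sum, ← Finset.mul_sum]
    have h2 : ∑ k ∈ Finset.range (M + 1), Wk κ w k = ∑ A, w A := by
      unfold Wk
      rw [Finset.sum_comm]
      refine Finset.sum_congr rfl fun A _ => ?_
      rw [Finset.sum_ite_eq, if_pos]
      rw [Finset.mem_range]
      have := hκ A
      omega
    rw [h2]
  -- choice of the clone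
  obtain ⟨j, hj⟩ : ∃ j : Fin R, ∑ A, w A * Real.cosh (X (A, j)) ≤ 3 * ∑ A, w A := by
    by_contra hcon
    push Not at hcon
    have h1 : ∑ j : Fin R, 3 * ∑ A, w A < ∑ j : Fin R, ∑ A, w A * Real.cosh (X (A, j)) := by
      refine Finset.sum_lt_sum_of_nonempty ⟨⟨0, hR0⟩, Finset.mem_univ _⟩ fun j _ => hcon j
    rw [Finset.sum_const, Finset.card_univ, Fintype.card_fin, nsmul_eq_mul, Finset.sum_comm,
      ← Fintype.sum_prod_type (fun p : τ × Fin R => w p.1 * Real.cosh (X p))] at h1
    have h2 : (R : ℝ) * (3 * ∑ A, w A) = 3 * (R * ∑ A, w A) := by ring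
    linarith
  refine ⟨fun i => σ (i * R + j), fun i => hσ _, ?_⟩
  exact hj

end

end Pool.Agent.R373.SQ
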